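import Pool.Agent.QUD.StmtsRB

/-!
# Squad QUD, row FN2: a common item
-/

set_option autoImplicit false

namespace Pool.Agent.QUD.H24

open MeasureTheory Complex Filter Topology Pool.Agent.H16Iso Pool.Agent.H62T
open Pool.Agent.AEU Pool.Agent.XQ
open Pool.Agent.H1Gen (det CCW poly)

theorem set_rot (a b c d : HP) : ({a, b, c, d} : Finset HP) = {d, a, b, c} := by
  ext s
  simp only [Finset.mem_insert, Finset.mem_singleton]
  tauto

theorem cyc_rot {a b c d : HP} (h : Cyc a b c d) : Cyc d a b c where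
  ne := by
    obtain ⟨h1, h2, h3, h4, h5, h6⟩ := h.ne
    exact ⟨h3.symm, h5.symm, h6.symm, h1, h2, h4⟩
  pg := set_rot a b c d ▸ h.pg
  ab := h.da
  bc := h.ab
  cd := h.bc
  da := h.cd
  vab := set_rot a b c d ▸ h.vda
  vbc := set_rot a b c d ▸ h.vab
  vcd := set_rot a b c d ▸ h.vbc
  vda := set_rot a b c d ▸ h.vcd

theorem item {P : Finset HP} {L : ℝ} {l : List (ℝ × ℝ)} {p : ℝ × ℝ} (h : Lst P L l)
    (hp : p ∈ l) : ∃ (a b c d : HP) (x y : ℝ), P = {a, b, c, d} ∧ Cyc a b c d ∧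
      Die a b c L x y ∧ (p = (x, y) ∨ p = (y, x)) := by
  rcases h with ⟨h1, -⟩ | ⟨a, b, c, d, x, y, hP, hc, hd, -, hl⟩ |
    ⟨a, b, c, d, x, y, z, hP, hc, hd, hd', -, hl⟩
  · rw [h1] at hp
    exact absurd hp List.not_mem_nil
  · rw [hl, List.mem_singleton] at hp
    exact ⟨a, b, c, d, x, y, hP, hc, hd, Or.inl hp⟩
  · rw [hl, List.mem_cons, List.mem_singleton] at hp
    rcases hp with hp | hp
    · exact ⟨a, b, c, d, x, y, hP, hc, hd, Or.inl hp⟩
    · exact ⟨d, a, b, c, z, x, hP.trans (set_rot a b c d), cyc_rot hc, hd', Or.inr hp⟩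

theorem fn2 (h1 : BriStmt) (h2 : Rw1Stmt) : Fn2Stmt := by
  intro hD P Q L l l' p p' hl hl' hp hp' hpp hs
  obtain ⟨a, b, c, d, x, y, rfl, hc, hd, hx⟩ := item hl hp
  obtain ⟨a', b', c', d', x', y', rfl, hc', hd', hx'⟩ := item hl' hp'
  obtain ⟨e1, e2, -⟩ := h1 a b c d a' b' c' d' hc hc' hs
  refine h2 hD a b c d a' b' c' d' L x y x' y' hc hc' e1 e2 hs hd hd' ?_
  rcases hx with rfl | rfl <;> rcases hx' with rfl | rfl <;> rcases hpp with h | h <;>
    simp only [Prod.mk.injEq] at h <;> tauto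

end Pool.Agent.QUD.H24
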