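import Pool.Agent.QUD.StmtsX
import Pool.Agent.Helper5_PM.M092

/-!
The vertices of a convex polygon in cyclic order.
-/

set_option autoImplicit false

namespace Pool.Agent.QUD.H24X

open Complex Pool.Agent.H16Iso Pool.Agent.H62T
open Pool.Agent.AEU Pool.Agent.XQ
open Pool.Agent.H1Gen (det CCW poly)
open Pool.Agent.H62T.H85 (nrm off)

theorem mem_sds {n : ℕ} [NeZero n] {v : Fin n → ℂ} {s : HP} :
    s ∈ sds v ↔ ∃ i, sd v i = s := by
  unfold sds sides sd
  simp

theorem ip_line (a x y : ℂ) (t : ℝ) :
    ip a (x + (t : ℂ) * (y - x)) = (1 - t) * ip a x + t * ip a y := by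
  unfold ip
  simp only [Complex.add_re, Complex.add_im, Complex.mul_re, Complex.mul_im, Complex.ofReal_re,
    Complex.ofReal_im, Complex.sub_re, Complex.sub_im]
  ring

theorem exists_coord {e w : ℂ} (he : e ≠ 0) (h : dt e w = 0) : ∃ t : ℝ, w = (t : ℂ) * e := by
  have h0 : 0 < e.re * e.re + e.im * e.im := by
    have := Complex.normSq_pos.2 he
    rwa [Complex.normSq_apply] at this
  refine ⟨(e.re * w.re + e.im * w.im) / (e.re * e.re + e.im * e.im), ?_⟩
  have h' : e.re * w.im - e.im * w.re = 0 := by simpa [dt] using h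
  apply Complex.ext
  · rw [Complex.re_ofReal_mul, div_mul_eq_mul_div, eq_div_iff h0.ne']
    linear_combination -(e.im) * h'
  · rw [Complex.im_ofReal_mul, div_mul_eq_mul_div, eq_div_iff h0.ne']
    linear_combination (e.re) * h'

theorem idx_ : IdxStmt := by
  intro n _ v hn hv
  have hv' : H62T.H85.CC v := hv
  have hinj := H62T.H85.side_inj hn hv'
  have hcl : ∀ l, v l ∈ Cl (sds v) := by
    intro l s hs
    obtain ⟨i, rfl⟩ := mem_sds.1 hs
    exact H62T.H85.le_off hn hv' i l
  have hlt : ∀ k l : Fin n, l ≠ k → l ≠ k + 1 → ip (nrm v k) (v l) < off v k :=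
    fun k l h1 h2 => H62T.H85.lt_off hn hv' h1 h2
  refine ⟨H29.pg_sides hn hv' hinj, ?_, ?_⟩
  · intro i
    refine ⟨hcl _, mem_sds.2 ⟨i, rfl⟩, mem_sds.2 ⟨i + 1, rfl⟩, ?_, H62T.H85.off_succ v i, rfl⟩
    intro h
    exact (H62T.H85.succ_ne hn i).1 (hinj h).symm
  · intro s t z hz
    obtain ⟨i, rfl⟩ := mem_sds.1 hz.mem₁
    obtain ⟨j, rfl⟩ := mem_sds.1 hz.mem₂
    have hji : j ≠ i := by
      rintro rfl
      exact hz.ne rfl
    have hon1 : ip (nrm v i) z = off v i := hz.on₁
    have hon2 : ip (nrm v j) z = off v j := hz.on₂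
    have hcz : ∀ k, ip (nrm v k) z ≤ off v k := fun k => hz.cl _ (mem_sds.2 ⟨k, rfl⟩)
    -- `z` on the line of the side `i`
    have he := H62T.H85.Ev_ne hn hv' i
    have hd : dt (H62T.H85.Ev v i) (z - v i) = 0 := by
      have h1 : ip (nrm v i) (z - v i) = 0 := by
        have e : ip (nrm v i) (z - v i) = ip (nrm v i) z - ip (nrm v i) (v i) := by
          simp only [ip, Complex.sub_re, Complex.sub_im]
          ring
        rw [e, hon1]
        exact sub_self _
      rw [H62T.H85.ip_nrm, div_eq_zero_iff] at h1
      rcases h1 with h1 | h1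
      · exact neg_eq_zero.1 h1
      · exact absurd (norm_eq_zero.1 h1) he
    obtain ⟨θ, hθ⟩ := exists_coord he hd
    have hzθ : z = v i + (θ : ℂ) * (v (i + 1) - v i) := by
      have : H62T.H85.Ev v i = v (i + 1) - v i := rfl
      rw [← this, ← hθ]
      ring
    have hline : ∀ k, ip (nrm v k) z
        = (1 - θ) * ip (nrm v k) (v i) + θ * ip (nrm v k) (v (i + 1)) := by
      intro k
      rw [hzθ]
      exact ip_line _ _ _ _
    have hle1 : θ ≤ 1 := by
      have h1 := hcz (i + 1)
      rw [hline] at h1
      have h2 : ip (nrm v (i + 1)) (v i) < off v (i + 1) :=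
        hlt (i + 1) i (H62T.H85.succ_ne hn i).1.symm (H62T.H85.succ_ne hn i).2.symm
      have h3 : ip (nrm v (i + 1)) (v (i + 1)) = off v (i + 1) := rfl
      rw [h3] at h1
      by_contra hc
      push Not at hc
      nlinarith
    have hge0 : 0 ≤ θ := by
      have h1 := hcz (i - 1)
      rw [hline] at h1
      have h4 : i - 1 + 1 = i := sub_add_cancel i 1
      have h2 : ip (nrm v (i - 1)) (v (i + 1)) < off v (i - 1) := by
        refine hlt (i - 1) (i + 1) ?_ ?_
        · intro h
          apply (H62T.H85.succ_ne hn i).2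
          rw [h, h4]
        · rw [h4]
          exact (H62T.H85.succ_ne hn i).1
      have h3 : ip (nrm v (i - 1)) (v i) = off v (i - 1) := by
        have := H62T.H85.off_succ v (i - 1)
        rwa [h4] at this
      rw [h3] at h1
      by_contra hc
      push Not at hc
      nlinarith
    have hj := hline j
    rw [hon2] at hj
    rcases hge0.lt_or_eq with h0 | h0
    · rcases hle1.lt_or_eq with h1 | h1
      · exfalso
        have a1 := H62T.H85.le_off hn hv' j i
        have a2 := H62T.H85.le_off hn hv' j (i + 1)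
        by_cases h4 : i = j + 1
        · have a3 : ip (nrm v j) (v (i + 1)) < off v j := by
            apply hlt
            · rw [h4]
              exact (H62T.H85.succ_ne hn j).2
            · rw [h4]
              exact (H62T.H85.succ_ne hn (j + 1)).1
          nlinarith
        · have a3 : ip (nrm v j) (v i) < off v j := hlt j i hji.symm h4
          nlinarith
      · have hz1 : z = v (i + 1) := by
          rw [hzθ, h1]
          push_cast
          ring
        refine ⟨i, hz1, Or.inl ⟨rfl, ?_⟩⟩
        have h5 : i + 1 = j ∨ i + 1 = j + 1 := by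
          by_contra hc
          push Not at hc
          have := hlt j (i + 1) hc.1 hc.2
          rw [← hz1, hon2] at this
          exact lt_irrefl _ this
        rcases h5 with h5 | h5
        · rw [h5]
        · exact absurd (add_right_cancel h5).symm hji
    · have hz0 : z = v i := by
        rw [hzθ, ← h0]
        push_cast
        ring
      have h5 : i = j ∨ i = j + 1 := by
        by_contra hc
        push Not at hc
        have := hlt j i hc.1 hc.2
        rw [← hz0, hon2] at this
        exact lt_irrefl _ this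
      rcases h5 with h5 | h5
      · exact absurd h5.symm hji
      · refine ⟨j, by rw [hz0, h5], Or.inr ⟨rfl, by rw [h5]⟩⟩

end Pool.Agent.QUD.H24X
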